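import Pool.Agent.Work.MP_8a95ee_gt.Eu.All2

/-!
# The linear inequality between Euler characteristic and simplicial volume

For every `n > 0` there is a constant `C`, depending only on `n`, such that `|χ(M)| ≤ C ‖M‖` for
all closed aspherical manifolds `M = RZ L` of dimension `n` with `PosFan n L`: `L` is a flag
complex, the complex of a complete simplicial fan in `ℝ ^ n` generated by vectors `P v`, and there
is a matrix `N` which vanishes on the diagonal and on the edges of `L` and whose quadratic form is
positive on the nonzero linear relations between the vectors `P v`.  The boundary complex of the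
cross-polytope has this property, and the property is preserved by subdivision of edges; so all
duals of 2-truncated cubes (for example all flag nestohedra) have it.

More precisely, let `o` be an orientation cycle of `L` (one exists) and let `momentCycle L n o` be
the corresponding cycle of `RZ L`, which is `2 ^ n` times the fundamental cycle.  If `f` is a
continuous map from any space `X` to `RZ L` and `z` is a chain of `X` whose image is
`lam • momentCycle L n o + bd w`, then `|lam| * 2 ^ n * |χ(RZ L)| ≤ C * l1 z`.
-/

set_option autoImplicit false

namespace Pool.Agent.Results.MP_8a95ee_gt.LinearInequality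

open MP8a95ee

theorem result (n : ℕ) (hn : 0 < n) :
    PosFan n (cross n) ∧
    (∀ (L : Finset (Finset ℕ)) (u v w : ℕ), PosFan n L → u ≠ v → ({u, v} : Finset ℕ) ∈ L →
      w ∉ verts L → PosFan n (subdiv L u v w)) ∧
    ∃ C : ℝ, 0 < C ∧ ∀ L : Finset (Finset ℕ), PosFan n L →
      (∃ o : (Fin n → ℕ) → ℤ, IsOrientation L n o) ∧
      ∀ o : (Fin n → ℕ) → ℤ, IsOrientation L n o →
        ∀ (X : Type) [TopologicalSpace X] (f : C(X, RZ L)) (lam : ℝ) (z : SChain X n)
          (w : SChain (RZ L) (n + 1)), push f z = lam • momentCycle L n o + bd w →
          |lam| * 2 ^ n * |(eulerChar L : ℝ)| ≤ C * l1 z :=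
  ⟨Eu.prfFN5 n, fun _ _ _ _ h huv he hw => Eu.posFan_subdiv Eu.prfFN0
    (Eu.prfFN6 Eu.prfFN0) (Eu.prfFN7 Eu.prfQF) h huv he hw, Eu.linear_all n hn⟩

end Pool.Agent.Results.MP_8a95ee_gt.LinearInequality
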