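import Pool.Agent.Work.MP_8a95ee_gt.Npc.All2

/-!
# Gromov's question for all closed manifolds with a nonpositively curved cubulation

Let `X` be a locally finite CAT(0) cube complex, given by its 1-skeleton, a median graph with
vertex set `ℕ` (`IsMedianGraph X`, `LocFin X`); its cubes are the sets of neighbours of a vertex
which pairwise span squares (`link X x`), and `space X` is its geometric realisation.  Assume that
the link of every vertex is a real homology sphere of dimension `m`
(`RA.IsHSphere (link X x) (m + 1)`), that every vertex has at most `N` neighbours, that the group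
`Γ` of automorphisms of `X` acts freely on `space X`, and that the finite set `F` contains exactly
one vertex of every orbit (`IsDeck X Γ F`).  So `Mfd X Γ`, the quotient of `space X` by `Γ`, is a
closed aspherical real homology manifold of dimension `n = m + 1` with a nonpositively curved
cubulation, and all such manifolds arise in this way.  Assume that it is oriented
(`Oriented X Γ (m + 1) o`).

The curvature of a vertex `x` is the sum of `(-1/2) ^ |s|` over all cubes `s` with corner `x`; the
Euler characteristic is the sum of the curvatures of all vertices of the quotient.  There is a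
constant `c > 0`, depending only on `m` and `N`, such that the l1-norm of the fundamental class (and
of every class of every space `Y` which is mapped to it) is at least `c` times the sum of the
absolute values of the curvatures of all vertices of the quotient.  In particular the absolute value
of the Euler characteristic is at most a constant, depending only on `m` and `N`, times the
simplicial volume, and if the simplicial volume vanishes then the curvature vanishes at every vertex
and the Euler characteristic is zero.
-/

set_option autoImplicit false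

namespace Pool.Agent.Results.MP_8a95ee_gt.NPCCubulations

open MP8a95ee MP8a95ee.Npc

theorem result (m N : ℕ) : ∃ c : ℝ, 0 < c ∧
    ∀ (X : SimpleGraph ℕ) (_ : IsMedianGraph X) (_ : LocFin X) (_ : ∀ x, (nbr X x).card ≤ N)
      (_ : ∀ x, RA.IsHSphere (link X x) (m + 1))
      (Γ : Subgroup (Equiv.Perm ℕ)) (F : Finset ℕ) (_ : IsDeck X Γ F)
      (o : ℕ → (Fin (m + 1) → ℕ) → ℤ) (_ : Oriented X Γ (m + 1) o),
    bd (fundCycle X Γ F o) = 0 ∧
    |(eulerChar X Γ F : ℝ)| ≤ ∑ x ∈ F, |∑ s ∈ link X x, (-1 / 2 : ℝ) ^ s.card| ∧
    (∀ (Y : Type) [TopologicalSpace Y] (f : C(Y, Mfd X Γ)) (lam : ℝ)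
      (z : SChain Y (m + 1)) (w : SChain (Mfd X Γ) (m + 2)),
      push f z = lam • fundCycle X Γ F o + bd w →
      c * |lam| * ∑ x ∈ F, |∑ s ∈ link X x, (-1 / 2 : ℝ) ^ s.card| ≤ l1 z) ∧
    ((∀ ε : ℝ, 0 < ε → ∃ b : SChain (Mfd X Γ) (m + 2), l1 (fundCycle X Γ F o + bd b) < ε) →
      (∀ x, ∑ s ∈ link X x, (-1 / 2 : ℝ) ^ s.card = 0) ∧ eulerChar X Γ F = 0) := by
  obtain ⟨c, hc, h⟩ := allUMain m N
  refine ⟨c, hc, ?_⟩
  intro X hX hf hN hS Γ F hD o ho
  obtain ⟨h1, h2, h3, -⟩ := allMain X hX hf m hS Γ F hD o ho
  refine ⟨h1, ?_, ?_, ?_⟩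
  · have h5 : (eulerChar X Γ F : ℝ) = ∑ x ∈ F, ∑ s ∈ link X x, (-1 / 2 : ℝ) ^ s.card := by
      have h6 := congrArg (fun q : ℚ => (q : ℝ)) h2
      push_cast at h6
      exact h6
    rw [h5]
    exact Finset.abs_sum_le_sum_abs _ _
  · intro Y _ f lam z w hz
    exact h X hX hf hN hS Γ F hD o ho Y f lam z w hz
  · intro hv
    refine ⟨fun x => ?_, (h3 hv).2⟩
    have h7 := congrArg (fun q : ℚ => (q : ℝ)) ((h3 hv).1 x)
    push_cast at h7
    exact h7

end Pool.Agent.Results.MP_8a95ee_gt.NPCCubulations
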