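import Pool.Agent.Work.MP_8a95ee_gt.F

/-!
# Positive l1-seminorm for manifolds that map to real moment-angle complexes

Let `L` be a finite flag complex, `o` an integral simplicial `(2 m - 1)`-cycle of `L`, and let
`(A 0, B 0, ..., A (m - 1), B (m - 1))` be an ordered simplex on which `o` is not zero.  Suppose
that the vertices of `L` are coloured with `m` colours such that `A j` and `B j` have colour `j`
and the edge `{A j, B j}` lies on no triangle and on no 4-cycle of colour `j`.  Then every singular
chain `z` of a space `X` whose image under a continuous map `X → RZ L` is homologous to `lam` times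
the cycle `Z(o)` has l1-norm at least `2 ^ (|V| + m) * |lam * o (A 0, B 0, ...)|`.

If `L` is the barycentric subdivision of a triangulated closed oriented `(2 m - 1)`-manifold `K`,
every ordered facet has this property for the colouring of a simplex of dimension `d` by `d / 2`.
Hence the closed aspherical `2 m`-manifolds produced by the reflection trick of Davis from a
compact aspherical manifold with boundary `K` and the barycentric subdivision of `K` have positive
simplicial volume.
-/

namespace Pool.Agent.Results.MP_8a95ee_gt.ReflectionTrick

open MP8a95ee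

/-- Lower bound for the l1-norm of singular chains that map to a multiple of the cycle `Z(o)` of
the real moment-angle complex. -/
theorem result (m : ℕ) (L : Finset (Finset ℕ)) (hL : IsFlag L)
    (o : (Fin (2 * m) → ℕ) → ℤ) (ho : IsSimplicialCycle L (2 * m) o)
    (col A B : ℕ → ℕ) (hcol : ∀ v ∈ verts L, col v < m)
    (hA : ∀ j < m, col (A j) = j) (hB : ∀ j < m, col (B j) = j)
    (h0 : o (pairTuple m A B) ≠ 0)
    (hloc : ∀ j < m, ∀ x y : ℕ, col x = j → col y = j → ({A j, x} : Finset ℕ) ∈ L →
      ({x, y} : Finset ℕ) ∈ L → ({y, B j} : Finset ℕ) ∈ L →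
      x = B j ∨ y = A j ∨ (x = A j ∧ y = B j))
    (X : Type) [TopologicalSpace X] (f : C(X, RZ L)) (lam : ℝ) (z : SChain X (2 * m))
    (w : SChain (RZ L) (2 * m + 1))
    (h : push f z = lam • momentCycle L (2 * m) o + bd w) :
    2 ^ ((verts L).card + m) * |lam * (o (pairTuple m A B) : ℝ)| ≤ l1 z := by
  obtain ⟨hG, hs0, hs0L⟩ := F.good hL ho hcol hA hB h0 hloc
  exact F.lower hL ho hG (pairTuple m A B) hs0 hs0L f lam z w h

end Pool.Agent.Results.MP_8a95ee_gt.ReflectionTrick
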